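import Pool.Agent.W574.LM.Core
import Pool.Agent.T6.H26.WRoot
import Pool.Agent.T6.H56.LC.LCSlice
import Pool.Agent.R852.TL.Main
import Pool.Agent.Y228.AT.Top
import Pool.Agent.Y228.RR.Top
import Pool.Agent.TH187.SA.Roots
import Pool.Agent.TH192.DT.IdealTypes
import Pool.Agent.T6.H26.HankMix

set_option autoImplicit false
set_option linter.unusedSectionVars false

/-! # The root `-|w| / d` of weighted homogeneous ideals at the origin -/

namespace Pool.Agent.T6.H56.LC

open Pool.Agent.T6.H26

open Pool.Agent.W574.SM Pool.Agent.W574.CN Pool.Agent.W574.LM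

section Gen

variable {n : ℕ} {ι : Type} [Fintype ι] [DecidableEq ι]

/-- **The root `-|w| / d`** of the local functional equations, at a point. -/
theorem wrootL_aux (w : Fin (n + 1) → ℕ) (f : ι → MvPolynomial (Fin (n + 1)) ℂ) (d : ℕ)
    (hd : 0 < d) (hf : ∀ j, (f j).IsWeightedHomogeneous w d) (b : Polynomial ℂ)
    (H : MvPolynomial (Fin (n + 1)) ℂ) (hb : IsLocEq H f b) (e : Fin (n + 1) → ι) (z : Fin (n + 1)) (hz : 0 < w z)
    (p : Fin (n + 1) → ℂ) (hpz : p z ≠ 0)
    (hdet : (Matrix.of fun s t =>
      MvPolynomial.eval p (MvPolynomial.pderiv s (wfun w f e t))).det ≠ 0)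
    (hgz : MvPolynomial.eval p (f (e z)) ≠ 0)
    (hHp : MvPolynomial.eval (fun t => if w t = 0 then p t else 0) H ≠ 0) :
    b.eval (-((∑ i, w i : ℕ) : ℂ) / d) = 0 := by
  classical
  set A := ptz z p with hA
  set g : MvPolynomial (Fin (n + 1)) ℂ → MvPowerSeries (Fin (n + 1)) ℂ :=
    fun q => MvPolynomial.aeval A q with hgdef
  have hgc : ∀ q, MvPowerSeries.constantCoeff (g q) = MvPolynomial.eval p q := by
    intro q
    rw [hgdef]
    simp only
    rw [constCoeff_aeval, hA, cc_ptz]
  have hgd : ∀ (s : Fin (n + 1)) q, MvPowerSeries.pderiv ℂ s (g q) =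
      if s = z then 0 else g (MvPolynomial.pderiv s q) := by
    intro s q
    rw [hgdef]
    simp only
    rw [pderiv_aeval, hA]
    simp only [pderiv_ptz]
    by_cases hs : s = z
    · rw [if_pos hs]
      refine Finset.sum_eq_zero fun t _ => ?_
      by_cases ht : t = z
      · rw [if_pos ht, mul_zero]
      · rw [if_neg ht, if_neg (fun h : s = t => ht (by rw [← h]; exact hs)), mul_zero]
    · rw [if_neg hs, Finset.sum_eq_single s]
      · rw [if_neg hs, if_pos rfl, mul_one]
      · intro t _ hts
        by_cases ht : t = z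
        · rw [if_pos ht, mul_zero]
        · rw [if_neg ht, if_neg (Ne.symm hts), mul_zero]
      · intro h; exact absurd (Finset.mem_univ s) h
  set ζ : Fin (n + 1) → MvPowerSeries (Fin (n + 1)) ℂ :=
    fun t => MvPowerSeries.X z ^ w t * A t with hζ
  have hζa : ∀ j, MvPolynomial.aeval ζ (f j) = MvPowerSeries.X z ^ d * g (f j) := fun j =>
    aeval_mul_whomog w A (MvPowerSeries.X z) (f j) d (hf j)
  have hζH : MvPowerSeries.constantCoeff (MvPolynomial.aeval ζ H) ≠ 0 := by
    have h1 : (fun t => MvPowerSeries.constantCoeff (ζ t)) = fun t => if w t = 0 then p t else 0 := by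
      funext t
      have h2 : MvPowerSeries.constantCoeff (A t) = p t := congrFun (cc_ptz z p) t
      rw [hζ]
      simp only
      rw [map_mul, map_pow, MvPowerSeries.constantCoeff_X, h2]
      by_cases ht : w t = 0
      · rw [ht, pow_zero, one_mul, if_pos rfl]
      · rw [zero_pow ht, zero_mul, if_neg ht]
    rw [constCoeff_aeval, h1]
    exact hHp
  set U1 := g (f (e z)) with hU1
  have hU1c : MvPowerSeries.constantCoeff U1 ≠ 0 := by rw [hU1, hgc]; exact hgz
  have hU1i : U1⁻¹ * U1 = 1 := MvPowerSeries.inv_mul_cancel U1 hU1c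
  set lam : Fin (n + 1) → ℂ := fun t =>
    MvPolynomial.eval p (f (e t)) / MvPolynomial.eval p (f (e z)) with hlam
  set N : Fin (n + 1) → MvPowerSeries (Fin (n + 1)) ℂ := fun t => g (f (e t)) - lam t • U1 with hN
  have hNc : ∀ t, MvPowerSeries.constantCoeff (N t) = 0 := by
    intro t
    rw [hN]
    simp only
    rw [map_sub, hU1, hgc, MvPowerSeries.smul_eq_C_mul, map_mul, MvPowerSeries.constantCoeff_C,
      hgc, hlam]
    simp only
    rw [div_mul_cancel₀ _ hgz, sub_self]
  set κ : ℂ := (MvPolynomial.eval p (f (e z)))⁻¹ with hκ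
  set u : Fin (n + 1) → MvPowerSeries (Fin (n + 1)) ℂ := fun t =>
    if t = z then MvPowerSeries.X z else if w t = 0 then κ • MvPowerSeries.X t
      else N t * U1⁻¹ with hu
  have hu0 : u z = MvPowerSeries.X z := if_pos rfl
  have hu2 : ∀ t, t ≠ z → w t = 0 → u t = κ • MvPowerSeries.X t := by
    intro t ht hw
    rw [hu]; simp only; rw [if_neg ht, if_pos hw]
  have hu1 : ∀ t, t ≠ z → w t ≠ 0 → u t = N t * U1⁻¹ := by
    intro t ht hw
    rw [hu]; simp only; rw [if_neg ht, if_neg hw]
  have huU : ∀ t, t ≠ z → w t ≠ 0 → U1 * u t = N t := by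
    intro t ht hw
    rw [hu1 t ht hw]
    linear_combination N t * hU1i
  have huc : ∀ t, MvPowerSeries.constantCoeff (u t) = 0 := by
    intro t
    by_cases ht : t = z
    · rw [ht, hu0, MvPowerSeries.constantCoeff_X]
    · by_cases hw : w t = 0
      · rw [hu2 t ht hw, MvPowerSeries.smul_eq_C_mul, map_mul, MvPowerSeries.constantCoeff_X,
          mul_zero]
      · rw [hu1 t ht hw, map_mul, hNc, zero_mul]
  have hud : ∀ s t, t ≠ z → w t ≠ 0 → MvPolynomial.eval p (f (e z)) *
      MvPowerSeries.constantCoeff (MvPowerSeries.pderiv ℂ s (u t)) =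
      MvPowerSeries.constantCoeff (MvPowerSeries.pderiv ℂ s (N t)) := by
    intro s t ht hw
    have h1 : MvPowerSeries.constantCoeff (MvPowerSeries.pderiv ℂ s (U1 * u t)) =
        MvPowerSeries.constantCoeff (MvPowerSeries.pderiv ℂ s (N t)) := by rw [huU t ht hw]
    rw [Derivation.leibniz, smul_eq_mul, smul_eq_mul, map_add, map_mul
      MvPowerSeries.constantCoeff, map_mul MvPowerSeries.constantCoeff, huc, zero_mul, add_zero,
      hU1, hgc] at h1
    exact h1
  have hwz0 : w z ≠ 0 := hz.ne'
  have hfz : wfun w f e z = f (e z) := if_neg hwz0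
  have hres := rees_coordsL f b H hb z ζ hζH (∑ i, w i - 1) d 0 hd (MvPowerSeries.C (w z * p z)) U1 1
    (by
      rw [MvPowerSeries.constantCoeff_C]
      exact mul_ne_zero (Nat.cast_ne_zero.2 hwz0) hpz) hU1c (by simp)
    (det_wcone w z hz p) (e z)
    (fun j => ⟨g (f j), hζa j⟩) (hζa _) 1 (by simp) u hu0 huc (by
      refine det_quotM z (Matrix.of fun s t =>
        MvPolynomial.eval p (MvPolynomial.pderiv s (wfun w f e t))) _
        (fun t => if w t = 0 then 0 else MvPolynomial.eval p (f (e t)))
        (fun s => (w s : ℂ) * p s) d (mul_ne_zero (Nat.cast_ne_zero.2 hwz0) hpz) ?_ ?_ hdet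
        ?_ ?_ ?_
      · intro t
        simp only [Matrix.of_apply]
        by_cases hw : w t = 0
        · rw [if_pos hw, mul_zero]
          refine Finset.sum_eq_zero fun s _ => ?_
          unfold wfun
          rw [if_pos hw]
          by_cases hst : t = s
          · rw [← hst, hw, Nat.cast_zero, zero_mul, zero_mul]
          · rw [MvPolynomial.pderiv_X_of_ne hst, map_zero, mul_zero]
        · rw [if_neg hw]
          have h1 := congrArg (MvPolynomial.eval p) (hf (e t)).sum_weight_X_mul_pderiv
          rw [map_sum, map_nsmul, nsmul_eq_mul] at h1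
          rw [← h1]
          refine Finset.sum_congr rfl fun s _ => ?_
          unfold wfun
          rw [if_neg hw, map_nsmul, map_mul, MvPolynomial.eval_X, nsmul_eq_mul, mul_assoc]
      · rw [if_neg hwz0]
        exact hgz
      · intro s
        rw [Matrix.of_apply, hu0]
        by_cases hs : s = z
        · rw [if_pos hs, hs, MvPowerSeries.pderiv_X_self, map_one]
        · rw [if_neg hs, MvPowerSeries.pderiv_X_of_ne (Ne.symm hs), map_zero]
      · intro s t ht hs
        simp only [Matrix.of_apply]
        rw [if_neg hwz0, hfz]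
        by_cases hw : w t = 0
        · rw [if_pos hw, hu2 t ht hw, zero_mul, sub_zero, Derivation.map_smul,
            MvPowerSeries.smul_eq_C_mul, map_mul, MvPowerSeries.constantCoeff_C]
          unfold wfun
          rw [if_pos hw]
          by_cases hst : t = s
          · rw [hst, MvPowerSeries.pderiv_X_self, MvPolynomial.pderiv_X_self, map_one, map_one,
              hκ]
            field_simp
          · rw [MvPowerSeries.pderiv_X_of_ne hst, MvPolynomial.pderiv_X_of_ne hst, map_zero,
              map_zero, mul_zero, zero_mul, zero_mul]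
        · have h1 := hud s t ht hw
          have h2 : MvPowerSeries.constantCoeff (MvPowerSeries.pderiv ℂ s (N t)) =
              MvPolynomial.eval p (MvPolynomial.pderiv s (f (e t))) -
                lam t * MvPolynomial.eval p (MvPolynomial.pderiv s (f (e z))) := by
            rw [hN]
            simp only
            rw [map_sub, Derivation.map_smul, hU1, hgd, hgd, if_neg hs, if_neg hs, map_sub,
              MvPowerSeries.smul_eq_C_mul, map_mul MvPowerSeries.constantCoeff,
              MvPowerSeries.constantCoeff_C, hgc, hgc]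
          rw [h2] at h1
          have h3 : lam t * MvPolynomial.eval p (f (e z)) = MvPolynomial.eval p (f (e t)) := by
            rw [hlam]
            simp only
            rw [div_mul_cancel₀ _ hgz]
          have h4 : wfun w f e t = f (e t) := if_neg hw
          rw [if_neg hw, h4]
          linear_combination MvPolynomial.eval p (f (e z)) * h1 -
            MvPolynomial.eval p (MvPolynomial.pderiv s (f (e z))) * h3
      · intro t ht
        rw [Matrix.of_apply]
        by_cases hw : w t = 0
        · rw [hu2 t ht hw, Derivation.map_smul, MvPowerSeries.pderiv_X_of_ne ht, smul_zero,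
            map_zero]
        · have h1 := hud z t ht hw
          have h2 : MvPowerSeries.constantCoeff (MvPowerSeries.pderiv ℂ z (N t)) = 0 := by
            rw [hN]
            simp only
            rw [map_sub, Derivation.map_smul, hU1, hgd, hgd, if_pos rfl, if_pos rfl, smul_zero,
              sub_self, map_zero]
          rw [h2] at h1
          exact (mul_eq_zero.1 h1).resolve_left hgz) (by
      intro t ht
      by_cases hw : w t = 0
      · left
        refine ⟨κ • (MvPolynomial.X t - MvPolynomial.C (p t)), ?_⟩
        rw [map_smul, map_sub, MvPolynomial.aeval_X, MvPolynomial.aeval_C, hu2 t ht hw, hζ]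
        simp only
        rw [hw, pow_zero, one_mul, hA, ptz, if_neg ht]
        congr 1
        have h0 : algebraMap ℂ (MvPowerSeries (Fin (n + 1)) ℂ) (p t) =
          MvPowerSeries.C (p t) := rfl
        rw [h0]
        ring
      · right
        refine ⟨Pi.single (e t) 1 - lam t • Pi.single (e z) 1, ?_⟩
        have h1 : ∀ (h : ι → MvPowerSeries (Fin (n + 1)) ℂ) (i j : ι) (c : ℂ),
            ∑ k, ((Pi.single i 1 : ι → ℂ) - c • (Pi.single j 1 : ι → ℂ)) k • h k
              = h i - c • h j := by
          intro h i j c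
          simp only [Pi.sub_apply, Pi.smul_apply, sub_smul, Finset.sum_sub_distrib]
          congr 1
          · rw [Finset.sum_eq_single i]
            · simp
            · intro k _ hk; rw [Pi.single_eq_of_ne hk, zero_smul]
            · intro h; exact absurd (Finset.mem_univ i) h
          · rw [Finset.sum_eq_single j]
            · simp
            · intro k _ hk; rw [Pi.single_eq_of_ne hk, smul_zero, zero_smul]
            · intro h; exact absurd (Finset.mem_univ j) h
        rw [h1, hζa, hζa, mul_assoc]
        have h2 := huU t ht hw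
        rw [hU1] at h2
        rw [h2, hN]
        simp only
        rw [mul_sub, mul_smul_comm])
  have hle : 1 ≤ ∑ i, w i := by
    have := Finset.single_le_sum (f := w) (fun i _ => Nat.zero_le _) (Finset.mem_univ z)
    omega
  have hn' : -((((∑ i, w i - 1 : ℕ) : ℂ)) + 1 + (0 : ℕ)) = -((∑ i, w i : ℕ) : ℂ) := by
    rw [Nat.cast_sub hle]
    push_cast
    ring
  rwa [hn'] at hres

/-- **The root `-|w| / d`** of the local functional equations, for an ideal generated by weighted homogeneous polynomials of the same
degree `d`, such that together with the variables of weight zero there are `n + 1` algebraically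
independent functions. -/
theorem wrootL (w : Fin (n + 1) → ℕ) (hw : ∃ z, 0 < w z) (f : ι → MvPolynomial (Fin (n + 1)) ℂ)
    (d : ℕ) (hd : 0 < d) (hf : ∀ j, (f j).IsWeightedHomogeneous w d) (b : Polynomial ℂ)
    (H : MvPolynomial (Fin (n + 1)) ℂ) (hb : IsLocEq H f b) (hH : MvPolynomial.eval 0 H ≠ 0)
    (e : Fin (n + 1) → ι)
    (hdet : (Matrix.of fun s t => MvPolynomial.pderiv s (wfun w f e t)).det ≠ 0) :
    b.eval (-((∑ i, w i : ℕ) : ℂ) / d) = 0 := by
  classical
  -- the restriction of `H` to the subspace of the variables of weight zero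
  set H0 : MvPolynomial (Fin (n + 1)) ℂ :=
    MvPolynomial.aeval (fun t => if w t = 0 then MvPolynomial.X t else 0) H with hH0
  have hev : ∀ p, MvPolynomial.eval p H0 =
      MvPolynomial.eval (fun t => if w t = 0 then p t else 0) H := by
    intro p
    have h2 : ∀ g : MvPolynomial (Fin (n + 1)) ℂ, MvPolynomial.eval p
        (MvPolynomial.aeval (fun t => if w t = 0 then (MvPolynomial.X t : MvPolynomial (Fin (n + 1)) ℂ)
          else 0) g) = MvPolynomial.eval (fun t => if w t = 0 then p t else 0) g := by
      intro g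
      induction g using MvPolynomial.induction_on with
      | C a => rw [MvPolynomial.algHom_C, MvPolynomial.algebraMap_eq, MvPolynomial.eval_C,
          MvPolynomial.eval_C]
      | add p q hp hq => rw [map_add, map_add, hp, hq, map_add]
      | mul_X g k hg =>
        rw [map_mul, map_mul, hg, map_mul, MvPolynomial.eval_X, MvPolynomial.aeval_X]
        split_ifs
        · rw [MvPolynomial.eval_X]
        · rw [map_zero]
    exact h2 H
  have hH0ne : H0 ≠ 0 := by
    intro h0
    apply hH
    have h2 := hev 0
    rw [h0, map_zero] at h2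
    have h3 : (fun t => if w t = 0 then (0 : Fin (n + 1) → ℂ) t else 0) = 0 := by
      funext t
      split_ifs <;> rfl
    rw [h3] at h2
    exact h2.symm
  have h1 : (∏ z, MvPolynomial.X z) *
      ((Matrix.of fun s t => MvPolynomial.pderiv s (wfun w f e t)).det * H0) ≠ 0 :=
    mul_ne_zero (Finset.prod_ne_zero_iff.2 fun z _ => MvPolynomial.X_ne_zero z)
      (mul_ne_zero hdet hH0ne)
  obtain ⟨p, hp⟩ : ∃ p, MvPolynomial.eval p ((∏ z, MvPolynomial.X z) *
      ((Matrix.of fun s t => MvPolynomial.pderiv s (wfun w f e t)).det * H0)) ≠ 0 := by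
    by_contra hne
    push Not at hne
    exact h1 (MvPolynomial.funext fun p => by rw [hne p, map_zero])
  rw [map_mul, map_mul, map_prod] at hp
  have hp0 : ∀ z, p z ≠ 0 := by
    intro z
    have h2 := Finset.prod_ne_zero_iff.1 (left_ne_zero_of_mul hp) z (Finset.mem_univ z)
    rwa [MvPolynomial.eval_X] at h2
  have hp1 := left_ne_zero_of_mul (right_ne_zero_of_mul hp)
  have hHp := right_ne_zero_of_mul (right_ne_zero_of_mul hp)
  rw [hev] at hHp
  rw [RingHom.map_det] at hp1
  have hp2 : (Matrix.of fun s t =>
      MvPolynomial.eval p (MvPolynomial.pderiv s (wfun w f e t))).det ≠ 0 := hp1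
  -- one of the forms does not vanish at the point
  obtain ⟨z, hz, hgz⟩ : ∃ t, 0 < w t ∧ MvPolynomial.eval p (f (e t)) ≠ 0 := by
    by_contra hne
    push Not at hne
    apply hp2
    rw [← Matrix.exists_vecMul_eq_zero_iff]
    obtain ⟨z, hz⟩ := hw
    refine ⟨fun s => (w s : ℂ) * p s, fun h => ?_, ?_⟩
    · have h3 := congrFun h z
      exact mul_ne_zero (Nat.cast_ne_zero.2 hz.ne') (hp0 z) h3
    funext t
    change ∑ s, ((w s : ℂ) * p s) *
      MvPolynomial.eval p (MvPolynomial.pderiv s (wfun w f e t)) = 0
    by_cases hwt : w t = 0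
    · refine Finset.sum_eq_zero fun s _ => ?_
      unfold wfun
      rw [if_pos hwt]
      by_cases hst : t = s
      · rw [← hst, hwt, Nat.cast_zero, zero_mul, zero_mul]
      · rw [MvPolynomial.pderiv_X_of_ne hst, map_zero, mul_zero]
    · have h2 := congrArg (MvPolynomial.eval p) (hf (e t)).sum_weight_X_mul_pderiv
      rw [map_sum, map_nsmul, hne t (Nat.pos_of_ne_zero hwt), smul_zero] at h2
      rw [← h2]
      refine Finset.sum_congr rfl fun s _ => ?_
      unfold wfun
      rw [if_neg hwt, map_nsmul, map_mul, MvPolynomial.eval_X, nsmul_eq_mul, mul_assoc]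
  exact wrootL_aux w f d hd hf b H hb e z hz p (hp0 z) hp2 hgz hHp

end Gen

end Pool.Agent.T6.H56.LC
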