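import Pool.Agent.W574.CN.Deh2

set_option autoImplicit false
set_option linter.unusedSectionVars false

/-! # Dehomogenization of functional equations of weighted homogeneous ideals -/

namespace Pool.Agent.T6.H56.LC


open MvPolynomial Pool.Agent.W574.SM Pool.Agent.W574.HS Pool.Agent.W574.CN

section HomWt

variable {σ : Type}

/-- weighted homogeneous of the degree `N ∈ ℤ` (or zero) -/
def HomWt (w : σ → ℕ) (N : ℤ) (g : MvPolynomial σ ℂ) : Prop :=
  g = 0 ∨ ∃ m : ℕ, (m : ℤ) = N ∧ g.IsWeightedHomogeneous w m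

variable {w : σ → ℕ}

theorem homWt_zero (N : ℤ) : HomWt w N (0 : MvPolynomial σ ℂ) := Or.inl rfl

theorem homWt_smul {N : ℤ} {g : MvPolynomial σ ℂ} (h : HomWt w N g) (c : ℂ) : HomWt w N (c • g) := by
  rcases h with rfl | ⟨m, hm, h⟩
  · rw [smul_zero]; exact homWt_zero N
  · refine Or.inr ⟨m, hm, ?_⟩
    exact (weightedHomogeneousSubmodule ℂ w m).smul_mem c h

theorem homWt_X_mul {N : ℤ} {g : MvPolynomial σ ℂ} (h : HomWt w N g) (i : σ) :
    HomWt w (N + w i) (X i * g) := by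
  rcases h with rfl | ⟨m, hm, h⟩
  · rw [mul_zero]; exact homWt_zero _
  · refine Or.inr ⟨m + w i, by push_cast; rw [hm], ?_⟩
    rw [add_comm]
    exact (isWeightedHomogeneous_X ℂ w i).mul h

theorem pderiv_small {m : ℕ} {g : MvPolynomial σ ℂ}
    (h : g.IsWeightedHomogeneous w m) {i : σ} (hi : m < w i) : pderiv i g = 0 := by
  classical
  ext k
  rw [coeff_pderiv, coeff_zero]
  by_contra h0
  have h1 := h (left_ne_zero_of_mul h0)
  rw [map_add, Finsupp.weight_single, one_smul] at h1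
  omega

theorem homWt_pderiv {N : ℤ} {g : MvPolynomial σ ℂ} (h : HomWt w N g) (i : σ) :
    HomWt w (N - w i) (pderiv i g) := by
  rcases h with rfl | ⟨m, hm, h⟩
  · rw [map_zero]; exact homWt_zero _
  · by_cases hle : w i ≤ m
    · refine Or.inr ⟨m - w i, by push_cast [Nat.cast_sub hle]; linarith, ?_⟩
      exact h.pderiv (Nat.sub_add_cancel hle)
    · exact Or.inl (pderiv_small h (not_le.1 hle))

theorem homWt_euler [Fintype σ] {N : ℤ} {g : MvPolynomial σ ℂ} (h : HomWt w N g) :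
    ∑ i : σ, (w i : ℂ) • (X i * pderiv i g) = (N : ℂ) • g := by
  rcases h with rfl | ⟨m, hm, h⟩
  · simp
  · have h1 := h.sum_weight_X_mul_pderiv
    rw [← hm]
    simp only [← Nat.cast_smul_eq_nsmul ℂ] at h1
    rw [h1]
    push_cast
    rfl

theorem comp_homWt {N : ℤ} {g : MvPolynomial σ ℂ} (h : HomWt w N g) (m : ℕ) :
    weightedHomogeneousComponent w m g = if (m : ℤ) = N then g else 0 := by
  classical
  rcases h with rfl | ⟨k, hk, h⟩
  · simp
  · rw [weightedHomogeneousComponent_of_mem h, ← hk]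
    by_cases hmk : m = k
    · rw [if_pos hmk, if_pos (by rw [hmk])]
    · rw [if_neg hmk, if_neg (fun h' => hmk (by exact_mod_cast h'))]

end HomWt

section Deh

variable {n : ℕ}

/-- the substitution `x_i = c`; the other variables keep their order -/
noncomputable def dehw (i : Fin (n + 1)) (c : ℂ) :
    MvPolynomial (Fin (n + 1)) ℂ →ₐ[ℂ] MvPolynomial (Fin n) ℂ :=
  aeval (Fin.insertNth i (C c : MvPolynomial (Fin n) ℂ) X)

theorem dehw_self (i : Fin (n + 1)) (c : ℂ) : dehw i c (X i) = C c := by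
  rw [dehw, aeval_X, Fin.insertNth_apply_same]

theorem dehw_succAbove (i : Fin (n + 1)) (c : ℂ) (t : Fin n) :
    dehw i c (X (i.succAbove t)) = X t := by
  rw [dehw, aeval_X, Fin.insertNth_apply_succAbove]

theorem dehw_pderiv (i : Fin (n + 1)) (c : ℂ) (t : Fin n) (g : MvPolynomial (Fin (n + 1)) ℂ) :
    dehw i c (pderiv (i.succAbove t) g) = pderiv t (dehw i c g) := by
  induction g using MvPolynomial.induction_on with
  | C a => rw [pderiv_C, map_zero, algHom_C, algebraMap_eq, pderiv_C]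
  | add p q hp hq => rw [map_add, map_add, hp, hq, map_add, map_add]
  | mul_X p k hp =>
    rw [Derivation.leibniz, smul_eq_mul, smul_eq_mul, map_add, map_mul, map_mul, map_mul, hp,
      Derivation.leibniz, smul_eq_mul, smul_eq_mul]
    congr 2
    rcases Fin.eq_self_or_eq_succAbove i k with rfl | ⟨u, rfl⟩
    · rw [dehw_self, pderiv_C, pderiv_X_of_ne (Fin.ne_succAbove k t), map_zero]
    · rw [dehw_succAbove]
      by_cases h : u = t
      · subst h; rw [pderiv_X_self, pderiv_X_self, map_one]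
      · rw [pderiv_X_of_ne h, pderiv_X_of_ne (fun h' => h (Fin.succAbove_right_injective h')),
          map_zero]

theorem dehw_euler {w : Fin (n + 1) → ℕ} (i : Fin (n + 1)) (hi : w i ≠ 0) (c : ℂ) (hc : c ≠ 0)
    {N : ℤ} {g : MvPolynomial (Fin (n + 1)) ℂ} (h : HomWt w N g) :
    dehw i c (pderiv i g) = ((w i : ℂ) * c)⁻¹ • ((N : ℂ) • dehw i c g -
      ∑ t, (w (i.succAbove t) : ℂ) • (X t * pderiv t (dehw i c g))) := by
  have hwc : (w i : ℂ) * c ≠ 0 := mul_ne_zero (Nat.cast_ne_zero.2 hi) hc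
  have h1 := congrArg (dehw i c) (homWt_euler h)
  rw [map_sum, Fin.sum_univ_succAbove _ i, map_smul, map_mul, dehw_self, map_smul] at h1
  have h2 : ∑ t, dehw i c ((w (i.succAbove t) : ℂ) • (X (i.succAbove t) *
      pderiv (i.succAbove t) g)) =
      ∑ t, (w (i.succAbove t) : ℂ) • (X t * pderiv t (dehw i c g)) := by
    refine Finset.sum_congr rfl fun t _ => ?_
    rw [map_smul, map_mul, dehw_succAbove, dehw_pderiv]
  rw [h2] at h1
  rw [← h1, add_sub_cancel_right, ← smul_eq_C_mul, smul_smul, smul_smul, mul_assoc _ _ c,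
    inv_mul_cancel₀ hwc, one_smul]

/-- the operators which are graded, and whose graded parts are compatible with the
dehomogenization -/
def GRW (w : Fin (n + 1) → ℕ) (i : Fin (n + 1)) (c : ℂ)
    (Q : Module.End ℂ (MvPolynomial (Fin (n + 1)) ℂ)) : Prop :=
  ∃ (κ : Type) (_ : Fintype κ) (v : κ → ℤ) (Φ : κ → ℤ → Module.End ℂ (MvPolynomial (Fin n) ℂ)),
    (∀ k, PO (Φ k)) ∧ ∀ (D : ℤ) (g : MvPolynomial (Fin (n + 1)) ℂ), HomWt w D g →
      ∃ q : κ → MvPolynomial (Fin (n + 1)) ℂ, Q g = ∑ k, q k ∧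
        ∀ k, HomWt w (D + v k) (q k) ∧ dehw i c (q k) = Φ k D (dehw i c g)

variable {w : Fin (n + 1) → ℕ}

theorem grw_of_one (i : Fin (n + 1)) (c : ℂ) (Q : Module.End ℂ (MvPolynomial (Fin (n + 1)) ℂ))
    (v : ℤ) (Φ : ℤ → Module.End ℂ (MvPolynomial (Fin n) ℂ)) (hΦ : PO Φ)
    (h : ∀ (D : ℤ) (g : MvPolynomial (Fin (n + 1)) ℂ), HomWt w D g →
      HomWt w (D + v) (Q g) ∧ dehw i c (Q g) = Φ D (dehw i c g)) : GRW w i c Q :=
  ⟨Unit, inferInstance, fun _ => v, fun _ => Φ, fun _ => hΦ, fun D g hg =>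
    ⟨fun _ => Q g, by simp, fun _ => h D g hg⟩⟩

theorem grw_add (i : Fin (n + 1)) (c : ℂ) {Q1 Q2 : Module.End ℂ (MvPolynomial (Fin (n + 1)) ℂ)}
    (h1 : GRW w i c Q1) (h2 : GRW w i c Q2) : GRW w i c (Q1 + Q2) := by
  obtain ⟨κ1, i1, w1, Φ1, hΦ1, h1⟩ := h1
  obtain ⟨κ2, i2, w2, Φ2, hΦ2, h2⟩ := h2
  refine ⟨κ1 ⊕ κ2, inferInstance, Sum.elim w1 w2, Sum.elim Φ1 Φ2, ?_, fun D g hg => ?_⟩
  · rintro (k | k)
    · exact hΦ1 k
    · exact hΦ2 k
  · obtain ⟨q1, hq1, hq1'⟩ := h1 D g hg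
    obtain ⟨q2, hq2, hq2'⟩ := h2 D g hg
    refine ⟨Sum.elim q1 q2, ?_, ?_⟩
    · rw [Fintype.sum_sum_type, LinearMap.add_apply, hq1, hq2]
      rfl
    · rintro (k | k)
      · exact hq1' k
      · exact hq2' k

theorem grw_mul (i : Fin (n + 1)) (c : ℂ) {Q1 Q2 : Module.End ℂ (MvPolynomial (Fin (n + 1)) ℂ)}
    (h1 : GRW w i c Q1) (h2 : GRW w i c Q2) : GRW w i c (Q1 * Q2) := by
  obtain ⟨κ1, i1, w1, Φ1, hΦ1, h1⟩ := h1
  obtain ⟨κ2, i2, w2, Φ2, hΦ2, h2⟩ := h2
  refine ⟨κ1 × κ2, inferInstance, fun k => w2 k.2 + w1 k.1, fun k D => Φ1 k.1 (D + w2 k.2) *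
    Φ2 k.2 D, fun k => po_mul (po_shift (hΦ1 k.1) _) (hΦ2 k.2), fun D g hg => ?_⟩
  obtain ⟨q2, hq2, hq2'⟩ := h2 D g hg
  choose q1 hq1 hq1' using fun k : κ2 => h1 (D + w2 k) (q2 k) (hq2' k).1
  refine ⟨fun k => q1 k.2 k.1, ?_, ?_⟩
  · rw [Module.End.mul_apply, hq2, map_sum, Fintype.sum_prod_type_right]
    exact Finset.sum_congr rfl fun k _ => hq1 k
  · rintro ⟨k, l⟩
    refine ⟨?_, ?_⟩
    · have := (hq1' l k).1
      rw [add_assoc] at this
      exact this
    · rw [(hq1' l k).2, (hq2' l).2]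
      rfl

theorem po_smul {σ : Type} {Φ : ℤ → Module.End ℂ (MvPolynomial σ ℂ)} (h : PO Φ) (a : ℂ) :
    PO (fun D => a • Φ D) := by
  have h1 : (fun D : ℤ => a • Φ D) = fun D : ℤ => (Polynomial.C a).eval (D : ℂ) • Φ D := by
    funext D
    rw [Polynomial.eval_C]
  rw [h1]
  exact po_poly h _

theorem grw_weyl (i : Fin (n + 1)) (hi : w i ≠ 0) (c : ℂ) (hc : c ≠ 0)
    (Q : Module.End ℂ (MvPolynomial (Fin (n + 1)) ℂ))
    (hQ : Q ∈ weyl (Fin (n + 1))) : GRW w i c Q := by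
  induction hQ using Algebra.adjoin_induction with
  | mem Q hQ =>
    rcases hQ with ⟨k, rfl⟩ | ⟨k, rfl⟩
    · rcases Fin.eq_self_or_eq_succAbove i k with rfl | ⟨t, rfl⟩
      · refine grw_of_one _ _ _ (w k) _ (po_smul (po_const 1) c) fun D g hg =>
          ⟨homWt_X_mul hg _, ?_⟩
        rw [LinearMap.mulLeft_apply, map_mul, dehw_self, ← smul_eq_C_mul]
        rfl
      · refine grw_of_one _ _ _ (w (i.succAbove t)) _ (po_const ⟨_, weyl_X t⟩) fun D g hg =>
          ⟨homWt_X_mul hg _, ?_⟩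
        rw [LinearMap.mulLeft_apply, map_mul, dehw_succAbove]
        rfl
    · rcases Fin.eq_self_or_eq_succAbove i k with rfl | ⟨t, rfl⟩
      · refine grw_of_one _ _ _ (-(w k : ℤ)) (fun D => ((w k : ℂ) * c)⁻¹ •
          ((Polynomial.X : Polynomial ℂ).eval (D : ℂ) • 1 +
          -(((∑ t : Fin n, (w (k.succAbove t) : ℂ) •
            ((⟨_, weyl_X t⟩ : weyl (Fin n)) * ⟨_, weyl_d t⟩) : weyl (Fin n)) :
            Module.End ℂ (MvPolynomial (Fin n) ℂ)))))
          (po_smul (po_add (po_poly (po_const 1) _) (po_neg (po_const _))) _) fun D g hg =>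
          ⟨by rw [← sub_eq_add_neg]; exact homWt_pderiv hg _, ?_⟩
        change dehw k c (pderiv k g) = _
        rw [dehw_euler k hi c hc hg, LinearMap.smul_apply, LinearMap.add_apply,
          LinearMap.neg_apply, LinearMap.smul_apply,
          Polynomial.eval_X, ← sub_eq_add_neg]
        congr 2
        rw [AddSubmonoidClass.coe_finsetSum, LinearMap.sum_apply]
        rfl
      · refine grw_of_one _ _ _ (-(w (i.succAbove t) : ℤ)) _ (po_const ⟨_, weyl_d t⟩)
          fun D g hg => ⟨by rw [← sub_eq_add_neg]; exact homWt_pderiv hg _, ?_⟩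
        change dehw i c (pderiv (i.succAbove t) g) = _
        rw [dehw_pderiv]
        rfl
  | algebraMap r =>
    refine grw_of_one _ _ _ 0 _ (po_const (algebraMap ℂ (weyl (Fin n)) r)) fun D g hg => ⟨?_, ?_⟩
    · rw [Module.algebraMap_end_apply, add_zero]
      exact homWt_smul hg r
    · rw [Module.algebraMap_end_apply, map_smul]
      rfl
  | add Q1 Q2 _ _ h1 h2 => exact grw_add i c h1 h2
  | mul Q1 Q2 _ _ h1 h2 => exact grw_mul i c h1 h2

end Deh

section Main

variable {n : ℕ} {ι : Type} [Fintype ι] [DecidableEq ι]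

theorem isWHom_prod_pow {w : Fin (n + 1) → ℕ} (f : ι → MvPolynomial (Fin (n + 1)) ℂ) (d : ℕ)
    (hf : ∀ j, (f j).IsWeightedHomogeneous w d) (s : ι → ℕ) :
    (∏ j, f j ^ s j).IsWeightedHomogeneous w (d * ∑ j, s j) := by
  rw [Finset.mul_sum]
  refine IsWeightedHomogeneous.prod _ _ _ fun j _ => ?_
  have := (hf j).pow (s j)
  rwa [smul_eq_mul, mul_comm] at this

/-- **Dehomogenization.** If the `f_j` are weighted homogeneous of the same degree, then a
functional equation of the ideal `(f_j)` gives a functional equation, with the same `b`, of the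
ideal `(f_j |_{x_i = c})`, if the weight of `x_i` is positive and `c ≠ 0`. -/
theorem functionalEq_dehw {w : Fin (n + 1) → ℕ} (i : Fin (n + 1)) (hi : w i ≠ 0) (c₀ : ℂ)
    (hc₀ : c₀ ≠ 0) (f : ι → MvPolynomial (Fin (n + 1)) ℂ) (d : ℕ)
    (hf : ∀ j, (f j).IsWeightedHomogeneous w d) (b : Polynomial ℂ) (hb : IsFunctionalEq f b) :
    IsFunctionalEq (fun j => dehw i c₀ (f j)) b := by
  classical
  obtain ⟨S, P, hS, hP⟩ := hb
  choose κ hκ v Φ hΦ hq using fun (c : ι → ℤ) (β : ι →₀ ℕ) =>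
    grw_weyl (w := w) i hi c₀ hc₀ (P c β).1 (P c β).2
  choose PP hPP using fun (c : ι → ℤ) (β : ι →₀ ℕ) (k : κ c β) =>
    applyAt_po (hΦ c β k) β d
  refine ⟨S, fun c => ∑ β ∈ (P c).support, ∑ k ∈ (Finset.univ : Finset (κ c β)).filter
    (fun k => v c β k = -(d : ℤ)), PP c β k, hS, fun s => ?_⟩
  have h1 := congrArg (fun g => dehw i c₀ (weightedHomogeneousComponent w (d * ∑ j, s j) g)) (hP s)
  have h2 : weightedHomogeneousComponent w (d * ∑ j, s j) (C (b.eval ((∑ j, s j : ℕ) : ℂ)) *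
      ∏ j, f j ^ s j) = C (b.eval ((∑ j, s j : ℕ) : ℂ)) * ∏ j, f j ^ s j := by
    rw [weightedHomogeneousComponent_C_mul, weightedHomogeneousComponent_of_mem
      (isWHom_prod_pow f d hf s), if_pos rfl]
  rw [h2, map_mul, algHom_C, algebraMap_eq, map_prod] at h1
  simp only [map_pow] at h1
  rw [h1, map_sum, map_sum]
  refine Finset.sum_congr rfl fun c hc => ?_
  rw [applyAt_sum, applyAt, Finsupp.sum, map_sum, map_sum]
  refine Finset.sum_congr rfl fun β _ => ?_
  rw [applyAt_sum]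
  -- the argument of the operators
  set m : ℕ := ∏ j, (if c j < 0 then (s j).choose (-c j).toNat else 1) with hm
  have hg : HomWt w ((d * (∑ j, s j + 1) : ℕ) : ℤ)
      (C (m : ℂ) * ∏ j, f j ^ ((s j : ℤ) + c j).toNat) := by
    by_cases hpos : ∀ j, 0 ≤ (s j : ℤ) + c j
    · have hsum : ∑ j, ((s j : ℤ) + c j).toNat = ∑ j, s j + 1 := by
        have : ((∑ j, ((s j : ℤ) + c j).toNat : ℕ) : ℤ) = ((∑ j, s j + 1 : ℕ) : ℤ) := by
          push_cast
          rw [← hS c hc, ← Finset.sum_add_distrib]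
          refine Finset.sum_congr rfl fun j _ => ?_
          exact Int.toNat_of_nonneg (hpos j)
        exact_mod_cast this
      refine Or.inr ⟨_, rfl, ?_⟩
      rw [C_mul']
      apply (weightedHomogeneousSubmodule _ _ _).smul_mem
      rw [← hsum]
      exact isWHom_prod_pow f d hf _
    · push Not at hpos
      obtain ⟨j, hj⟩ := hpos
      have : m = 0 := by
        refine Finset.prod_eq_zero (Finset.mem_univ j) ?_
        rw [if_pos (by omega), Nat.choose_eq_zero_iff]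
        omega
      left
      rw [this, Nat.cast_zero, C_0, zero_mul]
  obtain ⟨q, hq1, hq2⟩ := hq c β _ _ hg
  have hd : dehw i c₀ (C (m : ℂ) * ∏ j, f j ^ ((s j : ℤ) + c j).toNat) =
      C (m : ℂ) * ∏ j, (dehw i c₀ (f j)) ^ ((s j : ℤ) + c j).toNat := by
    rw [map_mul, algHom_C, algebraMap_eq, map_prod]
    simp only [map_pow]
  rw [map_smul, map_smul, hq1, map_sum, map_sum, Finset.smul_sum, Finset.sum_filter]
  refine Finset.sum_congr rfl fun k _ => ?_
  rw [comp_homWt (hq2 k).1, hPP, ← hd, ← (hq2 k).2]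
  by_cases hw : v c β k = -(d : ℤ)
  · rw [if_pos hw, if_pos (by rw [hw]; push_cast; ring)]
  · rw [if_neg hw, if_neg, map_zero, smul_zero]
    intro h
    apply hw
    push_cast at h
    linarith

end Main

end Pool.Agent.T6.H56.LC
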